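import Mathlib

set_option autoImplicit false

namespace Pool.Agent.Results.MP_93e4b7_co.Iso

abbrev V (r : ℕ) := Fin r → ZMod 2

/-- A multiplicity function (value zero at the zero vector) whose support spans. -/
def Gen {r : ℕ} (μ : V r → ℕ) : Prop :=
  μ 0 = 0 ∧ Submodule.span (ZMod 2) {v | μ v ≠ 0} = ⊤

/-- Laplacian of the Cayley multigraph with `μ u` edges between `w` and `w + u`. -/
def lap {r : ℕ} (μ : V r → ℕ) : Matrix (V r) (V r) ℤ := fun u w =>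
  if u = w then ((∑ x, μ x : ℕ) : ℤ) else -((μ (w - u) : ℕ) : ℤ)

/-- Cokernel of an integer matrix. -/
def Coker {ι : Type} [Fintype ι] (L : Matrix ι ι ℤ) : Type :=
  (ι → ℤ) ⧸ LinearMap.range L.mulVecLin

instance {ι : Type} [Fintype ι] (L : Matrix ι ι ℤ) : AddCommGroup (Coker L) :=
  Submodule.Quotient.addCommGroup _

/-- The sandpile group: torsion subgroup of the cokernel of the Laplacian. -/
def K {r : ℕ} (μ : V r → ℕ) : AddSubgroup (Coker (lap μ)) := AddCommGroup.torsion _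

def enc (v : V 3) : ℕ := (v 0).val + 2 * (v 1).val + 4 * (v 2).val

def mA (v : V 3) : ℕ := [0, 1, 2, 2, 2, 0, 0, 0].getD (enc v) 0
def mB (v : V 3) : ℕ := [0, 1, 1, 0, 1, 0, 1, 3].getD (enc v) 0

def tb (l : List (List ℤ)) : Matrix (V 3) (V 3) ℤ := fun u w => (l.getD (enc u) []).getD (enc w) 0

def P := tb [[1, 0, 0, 0, 0, 0, 0, 0], [-7, 0, 0, 0, 1, 0, 0, 0], [-2, 0, 1, 0, 1, 0, 0, 0],
  [-5828, 21, 2804, 185, -186, -1, 65, 0], [1979, 3, -928, -53, 51, 2, -21, 1],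
  [2759, -16, -1341, -94, 95, 0, -31, 0], [168, -1, -80, -6, 6, 0, -2, 0],
  [931, -6, -455, -31, 33, 0, -10, 0]]
def Pi' := tb [[1, 0, 0, 0, 0, 0, 0, 0], [-574, -90, 92, 0, 0, 2, -21, -2],
  [-5, -1, 1, 0, 0, 0, 0, 0], [961, 148, -147, 0, 0, -2, 26, 1], [7, 1, 0, 0, 0, 0, 0, 0],
  [-4334, -640, 616, -1, 0, -3, -51, 13], [-2291, -356, 355, 0, 0, 5, -68, -2],
  [6236, 939, -916, 2, 1, -1, 115, -9]]
def Q := tb [[-720, 0, 214, 0, 90, -30, 117, 328], [-2265, 1, 669, 0, 283, -94, 374, 1031],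
  [-1776, 0, 528, 0, 222, -74, 290, 809], [1105, 0, -328, 0, -138, 46, -183, -503],
  [-720, 0, 215, 0, 90, -30, 116, 328], [-4900, 0, 1418, 1, 611, -201, 840, 2230],
  [-3766, 0, 1123, 0, 471, -157, 612, 1716], [4392, 0, -1290, 0, -548, 183, -738, -2000]]
def Qi := tb [[89, 0, -61, -19, -20, 0, 10, 0], [-527, 1, 346, 115, 118, 0, -53, -1],
  [16, 0, -12, -4, -3, 0, 2, 0], [-6402, 0, 4268, 1394, 1405, 1, -659, -8],
  [-168, 0, 126, 38, 21, 0, -19, 1], [2198, 0, -1472, -480, -478, 0, 228, 3],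
  [17, 0, -12, -4, -4, 0, 2, 0], [426, 0, -291, -92, -90, 0, 46, 0]]

theorem h1 : P * Pi' = 1 := by
  refine Matrix.ext ?_; simp only [Matrix.mul_apply, Matrix.one_apply]; decide +kernel
theorem h2 : Pi' * P = 1 := mul_eq_one_comm.1 h1
theorem h3 : P * lap mA = lap mB * Qi := by
  refine Matrix.ext ?_; simp only [Matrix.mul_apply]; decide +kernel
theorem h4 : Pi' * lap mB = lap mA * Q := by
  refine Matrix.ext ?_; simp only [Matrix.mul_apply]; decide +kernel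

def e0 : (V 3 → ℤ) ≃ₗ[ℤ] (V 3 → ℤ) :=
  LinearEquiv.ofLinearMap P.mulVecLin Pi'.mulVecLin
    (by rw [← Matrix.mulVecLin_mul, h1, Matrix.mulVecLin_one])
    (by rw [← Matrix.mulVecLin_mul, h2, Matrix.mulVecLin_one])

theorem hmap : (LinearMap.range (lap mA).mulVecLin).map (e0 : (V 3 → ℤ) →ₗ[ℤ] (V 3 → ℤ)) =
    LinearMap.range (lap mB).mulVecLin := by
  ext y
  constructor
  · rintro ⟨_, ⟨z, rfl⟩, rfl⟩
    refine ⟨Qi.mulVec z, ?_⟩
    change (lap mB).mulVec (Qi.mulVec z) = P.mulVec ((lap mA).mulVec z)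
    rw [Matrix.mulVec_mulVec, Matrix.mulVec_mulVec, h3]
  · rintro ⟨z, rfl⟩
    refine ⟨_, ⟨Q.mulVec z, rfl⟩, ?_⟩
    change P.mulVec ((lap mA).mulVec (Q.mulVec z)) = (lap mB).mulVec z
    rw [Matrix.mulVec_mulVec z, ← h4, Matrix.mulVec_mulVec, ← Matrix.mul_assoc, h1, Matrix.one_mul]

def tors {A B : Type} [AddCommGroup A] [AddCommGroup B] (e : A ≃+ B) :
    AddCommGroup.torsion A ≃+ AddCommGroup.torsion B where
  toFun x := ⟨e x, e.toAddMonoidHom.isOfFinAddOrder x.2⟩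
  invFun y := ⟨e.symm y, e.symm.toAddMonoidHom.isOfFinAddOrder y.2⟩
  left_inv x := Subtype.ext (e.symm_apply_apply x)
  right_inv y := Subtype.ext (e.apply_symm_apply y)
  map_add' x y := Subtype.ext (e.map_add x y)

theorem span_top (μ : V 3 → ℕ) (h0 : μ ![1,0,0] ≠ 0) (h1 : μ ![0,1,0] ≠ 0)
    (h2 : μ ![0,0,1] ≠ 0) : Submodule.span (ZMod 2) {v | μ v ≠ 0} = ⊤ := by
  have e : ∀ v : V 3, v = v 0 • ![1,0,0] + v 1 • ![0,1,0] + v 2 • ![0,0,1] := by decide +kernel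
  refine Submodule.eq_top_iff'.2 fun v => ?_
  rw [e v]
  exact add_mem (add_mem (Submodule.smul_mem _ _ (Submodule.subset_span h0))
    (Submodule.smul_mem _ _ (Submodule.subset_span h1)))
    (Submodule.smul_mem _ _ (Submodule.subset_span h2))

theorem result : ∃ (r : ℕ) (μ ν : V r → ℕ), 1 ≤ r ∧ Gen μ ∧ Gen ν ∧ ∑ x, μ x = ∑ x, ν x ∧
    Nonempty (K μ ≃+ K ν) ∧ ¬ ∃ T : V r ≃ₗ[ZMod 2] V r, ∀ u, u ≠ 0 → ν (T u) = μ u := by
  refine ⟨3, mA, mB, by norm_num, ⟨by decide +kernel, span_top _ (by decide +kernel)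
    (by decide +kernel) (by decide +kernel)⟩, ⟨by decide +kernel, span_top _ (by decide +kernel)
    (by decide +kernel) (by decide +kernel)⟩, by decide +kernel,
    ⟨tors (Submodule.Quotient.equiv _ _ e0 hmap).toAddEquiv⟩, ?_⟩
  rintro ⟨T, hT⟩
  have h3 : ∀ u, mA u ≠ 3 := by decide +kernel
  have h := hT (T.symm ![1,1,1]) (fun h => by
    rw [LinearEquiv.map_eq_zero_iff] at h; revert h; decide +kernel)
  rw [T.apply_symm_apply] at h
  exact h3 _ (h.symm.trans (by decide +kernel))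

end Pool.Agent.Results.MP_93e4b7_co.Iso
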